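import Pool.Agent.H76.GH.Targets

/-!
Row ITR of the board ghw: the iteration of the convolutions (helper85).
-/

set_option autoImplicit false

namespace Pool.Agent.H85.GH

open MeasureTheory Pool.Agent.H34.GM Pool.Agent.H34.GZ Pool.Agent.H34.GU Pool.Agent.H34.GA
open Pool.Agent.H23.GB Pool.Agent.H76.GH

theorem pf_ITR (hCHI : T_CHI) (hCVA : T_CVA) (hCVB : T_CVB) (hCVW : T_CVW) (hCVF : T_CVF) :
    T_ITR := by
  obtain ⟨c, hc, hchi⟩ := hCHI
  refine ⟨c, hc, ?_⟩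
  intro m K q hm hK
  set D1 : ℝ := 2 * Real.exp (m / 2) * Real.exp (m + K) with hD1
  have hD11 : 1 ≤ D1 := by
    have h1 : 1 ≤ Real.exp ((m : ℝ) / 2) := Real.one_le_exp (by positivity)
    have h2 : 1 ≤ Real.exp ((m : ℝ) + K) := Real.one_le_exp (by positivity)
    have h3 : 1 ≤ Real.exp ((m : ℝ) / 2) * Real.exp ((m : ℝ) + K) := by nlinarith
    rw [hD1]
    nlinarith
  refine ⟨D1 ^ q, one_le_pow₀ hD11, ?_⟩
  induction q with
  | zero =>
    intro a N d M B r0 lam ψ ψ' hN hd hM hr0 hW hc' hsup hbd hlam hFE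
    refine ⟨ψ, ψ', fun _ => 1, hW, hc', ?_, ?_, hFE, ?_, ?_, ?_⟩
    · intro r hr hne
      simpa using hsup r hr hne
    · intro r hr
      simpa using hbd r hr
    · intro t
      rw [one_mul]
    · intro t
      rw [one_mul]
    · intro t
      simp
  | succ q ih =>
    intro a N d M B r0 lam ψ ψ' hN hd hM hr0 hW hc' hsup hbd hlam hFE
    obtain ⟨φ, φ', ρ, hW1, hc1, hsup1, hbd1, hFE1, hm1, hm2, hρ⟩ :=
      ih (fun i => a i.succ) N d M B r0 lam ψ ψ' hN hd hM hr0 hW hc' hsup hbd hlam hFE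
    obtain ⟨hk, hL⟩ := hchi m (a 0) hm
    have hr1 : 1 ≤ 3 ^ q * r0 := by
      have h1 : (1 : ℝ) ≤ 3 ^ q := one_le_pow₀ (by norm_num)
      nlinarith
    have hDM : 0 ≤ D1 ^ q * M := by positivity
    obtain ⟨-, hA2, hA3⟩ := hCVA m _ _ hm hk φ (3 ^ q * r0) hr1 hW1.cont hsup1
    obtain ⟨hB1, hB2, hB3⟩ := hCVB m K _ _ hm hK hk φ' (D1 ^ q * M) d hDM hd hc1 hbd1
    have hF := hCVF m K _ _ hm hK hk N d (D1 ^ q * M) B (3 ^ q * r0) lam φ φ' hN hd hDM hr1
      hW1.cont hc1 hsup1 hbd1 hlam hFE1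
    refine ⟨cv m (ha m (a 0)) φ, cw m (ha m (a 0)) φ',
      fun t => ‖Lh m (ha m (a 0)) (1 / 2 + t * Complex.I)‖ * ρ t,
      hCVW m _ _ hm hk φ lam hW1, hB1, ?_, ?_, hF, ?_, ?_, ?_⟩
    · intro r hr hne
      have h := hA2 r hr hne
      rw [show (3 : ℝ) ^ (q + 1) * r0 = 3 * (3 ^ q * r0) by ring]
      exact h
    · intro r hr
      refine (hB2 r hr).trans (le_of_eq ?_)
      rw [hD1]
      ring
    · intro t
      rw [hA3, norm_mul, hm1]
      ring
    · intro t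
      rw [hB3, hm2]
      ring
    · intro t
      obtain ⟨hρ0, hρ1, hρ2⟩ := hρ t
      obtain ⟨hL1, hL2⟩ := hL t
      set l : ℝ := ‖Lh m (ha m (a 0)) (1 / 2 + t * Complex.I)‖ with hl
      have hl0 : 0 ≤ l := norm_nonneg _
      set w : ℝ := ‖(1 / 2 + t * Complex.I : ℂ) - a 0‖ with hw
      have hw0 : 0 ≤ w := norm_nonneg _
      have hmw : 0 ≤ min 1 w := le_min zero_le_one hw0
      refine ⟨mul_nonneg hl0 hρ0, ?_, ?_⟩
      · rw [Fin.prod_univ_succ, Fin.prod_univ_succ, ← hw]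
        have h1 : 0 ≤ c ^ q * ∏ i : Fin q, min 1 ‖(1 / 2 + t * Complex.I : ℂ) - a i.succ‖ :=
          mul_nonneg (by positivity)
            (Finset.prod_nonneg fun i _ => le_min zero_le_one (norm_nonneg _))
        calc c ^ (q + 1) * (min 1 w * ∏ i : Fin q,
              min 1 ‖(1 / 2 + t * Complex.I : ℂ) - a i.succ‖) =
              (c * min 1 w) * (c ^ q * ∏ i : Fin q,
                min 1 ‖(1 / 2 + t * Complex.I : ℂ) - a i.succ‖) := by ring
          _ ≤ (l * w) * (ρ t * ∏ i : Fin q, ‖(1 / 2 + t * Complex.I : ℂ) - a i.succ‖) :=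
              mul_le_mul hL1 hρ1 h1 (mul_nonneg hl0 hw0)
          _ = _ := by ring
      · rw [Fin.prod_univ_succ, ← hw]
        have h1 : 0 ≤ ρ t * ∏ i : Fin q, ‖(1 / 2 + t * Complex.I : ℂ) - a i.succ‖ :=
          mul_nonneg hρ0 (Finset.prod_nonneg fun i _ => norm_nonneg _)
        calc l * ρ t * (w * ∏ i : Fin q, ‖(1 / 2 + t * Complex.I : ℂ) - a i.succ‖) =
              (l * w) * (ρ t * ∏ i : Fin q, ‖(1 / 2 + t * Complex.I : ℂ) - a i.succ‖) := by
              ring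
          _ ≤ 2 * 2 ^ q := mul_le_mul hL2 hρ2 h1 (by norm_num)
          _ = 2 ^ (q + 1) := by ring

end Pool.Agent.H85.GH
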